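import Mathlib
import Pool.Agent.MP_3a8a48_gt.Cov.Main

namespace Pool.Agent.Results.MP_3a8a48_gt.CoverClassification

open MeasureTheory

theorem result (m : ℕ) :
    ∃ V : ℕ → Set (EuclideanSpace ℝ (Fin m)) → ℝ,
      (∀ K : Set (EuclideanSpace ℝ (Fin m)), IsCompact K → Convex ℝ K → K.Nonempty →
        ∀ t : ℝ, 0 ≤ t → (volume (Metric.cthickening t K)).toReal =
          ∑ j ∈ Finset.range (m + 1),
            (volume (Metric.ball (0 : EuclideanSpace ℝ (Fin (m - j))) 1)).toReal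
              * V j K * t ^ (m - j)) ∧
      ∀ n : ℕ, n ≤ m → ∀ c : Finset (Fin m) → ℝ, (∀ S, 0 ≤ c S) →
        ((∀ K : Set (EuclideanSpace ℝ (Fin m)), IsCompact K → Convex ℝ K →
          (interior K).Nonempty →
          V n K ≤ ∑ S, c S * V n ((fun x : EuclideanSpace ℝ (Fin m) =>
            WithLp.toLp 2 fun i => if i ∈ S then x i else 0) '' K)) ↔
        ∀ I : Finset (Fin m), I.card = n → 1 ≤ ∑ S with I ⊆ S, c S) :=
  Pool.Agent.MP_3a8a48_gt.Cov.main m

end Pool.Agent.Results.MP_3a8a48_gt.CoverClassification
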