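import Mathlib
import Pool.Agent.MP_3a8a48_gt.Eqc.Main

namespace Pool.Agent.Results.MP_3a8a48_gt.EqualityBoxes

open MeasureTheory

theorem result (m : ℕ) (hm : 2 ≤ m) :
    ∃ V : ℕ → Set (EuclideanSpace ℝ (Fin m)) → ℝ,
      (∀ K : Set (EuclideanSpace ℝ (Fin m)), IsCompact K → Convex ℝ K → K.Nonempty →
        ∀ t : ℝ, 0 ≤ t → (volume (Metric.cthickening t K)).toReal =
          ∑ j ∈ Finset.range (m + 1),
            (volume (Metric.ball (0 : EuclideanSpace ℝ (Fin (m - j))) 1)).toReal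
              * V j K * t ^ (m - j)) ∧
      ∀ n : ℕ, 1 ≤ n → n < m → ∀ K : Set (EuclideanSpace ℝ (Fin m)), IsCompact K → Convex ℝ K →
        (interior K).Nonempty →
        (((m : ℝ) - (n : ℝ)) * V n K = ∑ i : Fin m, V n ((fun x : EuclideanSpace ℝ (Fin m) =>
            x - (inner ℝ x (EuclideanSpace.single i (1 : ℝ))) •
              EuclideanSpace.single i (1 : ℝ)) '' K) ↔
          ∃ lo hi : Fin m → ℝ, K = {x | ∀ i, x i ∈ Set.Icc (lo i) (hi i)}) :=
  Pool.Agent.MP_3a8a48_gt.Eqc.main m hm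

end Pool.Agent.Results.MP_3a8a48_gt.EqualityBoxes
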